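import Pool.Agent.MNU.StmtsU

set_option autoImplicit false

/-!
# MNU: row MOB (helper86)
-/

namespace Pool.Agent.MNU.H86

open Polynomial
open Pool.Agent.MNU

variable {K : Type} [Field K]

theorem mob_eq (α β γ δ : K) (n : ℕ) (p : K[X]) :
    mob α β γ δ n p =
      MvPolynomial.aeval ![C α * X + C β, C γ * X + C δ] (p.homogenize n) := by
  rw [mob, homogenize, Finset.Nat.sum_antidiagonal_eq_sum_range_succ_mk, map_sum]
  refine Finset.sum_congr rfl fun k _ => ?_
  rw [MvPolynomial.aeval_monomial, Finsupp.update_eq_add_single (by simp),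
    Finsupp.prod_add_index' (by simp) (by intros; rw [pow_add]),
    Finsupp.prod_single_index (by simp), Finsupp.prod_single_index (by simp), mul_assoc]
  rfl

theorem mob_mul {α β γ δ : K} {m n : ℕ} {p q : K[X]} (hp : p.natDegree ≤ m)
    (hq : q.natDegree ≤ n) :
    mob α β γ δ (m + n) (p * q) = mob α β γ δ m p * mob α β γ δ n q := by
  rw [mob_eq, mob_eq, mob_eq, homogenize_mul p q hp hq, map_mul]

theorem mob_C_mul {α β γ δ : K} {n : ℕ} (c : K) (p : K[X]) :
    mob α β γ δ n (C c * p) = C c * mob α β γ δ n p := by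
  simp only [mob, coeff_C_mul, C_mul, Finset.mul_sum, mul_assoc]

theorem mob_sub {α β γ δ : K} {n : ℕ} (p q : K[X]) :
    mob α β γ δ n (p - q) = mob α β γ δ n p - mob α β γ δ n q := by
  simp only [mob, coeff_sub, C_sub, sub_mul, Finset.sum_sub_distrib]

theorem mob_deg {α β γ δ : K} {n : ℕ} (p : K[X]) : (mob α β γ δ n p).natDegree ≤ n := by
  refine natDegree_sum_le_of_forall_le _ _ fun i hi => ?_
  have hi' : i ≤ n := by
    rw [Finset.mem_range] at hi
    omega
  have h1 : ∀ a b : K, (C a * X + C b : K[X]).natDegree ≤ 1 := fun a b =>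
    natDegree_linear_le
  have h2 : ((C α * X + C β : K[X]) ^ i).natDegree ≤ i * 1 := natDegree_pow_le_of_le i (h1 α β)
  have h3 : ((C γ * X + C δ : K[X]) ^ (n - i)).natDegree ≤ (n - i) * 1 :=
    natDegree_pow_le_of_le (n - i) (h1 γ δ)
  have h4 : (C (p.coeff i) * (C α * X + C β) ^ i : K[X]).natDegree ≤ i * 1 :=
    (natDegree_C_mul_le _ _).trans h2
  have h5 : (C (p.coeff i) * (C α * X + C β) ^ i * (C γ * X + C δ) ^ (n - i) : K[X]).natDegree ≤
      i * 1 + (n - i) * 1 := natDegree_mul_le.trans (Nat.add_le_add h4 h3)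
  omega

theorem mob_eval {α β γ δ z : K} {n : ℕ} {p : K[X]} (hp : p.natDegree ≤ n)
    (hz : γ * z + δ ≠ 0) :
    (mob α β γ δ n p).eval z = (γ * z + δ) ^ n * p.eval ((α * z + β) / (γ * z + δ)) := by
  rw [mob, eval_finsetSum, eval_eq_sum_range' (Nat.lt_succ_of_le hp), Finset.mul_sum]
  refine Finset.sum_congr rfl fun i hi => ?_
  have hi' : i ≤ n := by
    rw [Finset.mem_range] at hi
    omega
  simp only [eval_mul, eval_pow, eval_add, eval_C, eval_X]
  have e1 : (γ * z + δ) ^ n = (γ * z + δ) ^ i * (γ * z + δ) ^ (n - i) := by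
    rw [← pow_add]
    congr 1
    omega
  rw [e1, div_pow]
  generalize γ * z + δ = w at hz
  have hw : w ^ i ≠ 0 := pow_ne_zero i hz
  field_simp

theorem mob_pow {α β γ δ : K} {m : ℕ} {p : K[X]} (hp : p.natDegree ≤ m) (N : ℕ) :
    mob α β γ δ (N * m) (p ^ N) = (mob α β γ δ m p) ^ N := by
  induction N with
  | zero =>
    rw [pow_zero, pow_zero, Nat.zero_mul, mob]
    simp
  | succ N ih =>
    rw [Nat.succ_mul, pow_succ, pow_succ, mob_mul (natDegree_pow_le_of_le N hp) hp, ih]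

theorem mob_lin {α β γ δ : K} (ξ : K) :
    mob α β γ δ 1 (X - C ξ) = C (α - γ * ξ) * X + C (β - δ * ξ) := by
  rw [mob, Finset.sum_range_succ, Finset.sum_range_one]
  simp only [coeff_sub, coeff_X_zero, coeff_C_zero, coeff_X_one, coeff_C_succ, pow_zero, pow_one,
    Nat.sub_zero, Nat.sub_self, C_sub, C_mul, C_0, C_1]
  ring

theorem mob_ : MobStmt := by
  intro g K _ f N U W c α β γ δ ξ' e s hf hdet hz he hs h
  set ξ : K := (α * ξ' + β) / (γ * ξ' + δ) with hξ
  have hk : α - γ * ξ = (α * δ - β * γ) / (γ * ξ' + δ) := by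
    rw [hξ]
    field_simp
    ring
  have hk0 : α - γ * ξ ≠ 0 := by
    rw [hk]
    exact div_ne_zero hdet hz
  have hm : ξ * (γ * ξ' + δ) = α * ξ' + β := by
    rw [hξ, div_mul_cancel₀ _ hz]
  have hk1 : β - δ * ξ = -((α - γ * ξ) * ξ') := by
    linear_combination (-1 : K) * hm
  have hlin : mob α β γ δ 1 (X - C ξ) = C (α - γ * ξ) * (X - C ξ') := by
    rw [mob_lin, hk1, C_neg, C_mul]
    ring
  have hpow : mob α β γ δ N ((X - C ξ) ^ N) = (C (α - γ * ξ) * (X - C ξ')) ^ N := by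
    have h1 := mob_pow (α := α) (β := β) (γ := γ) (δ := δ) (natDegree_X_sub_C_le ξ) N
    rw [Nat.mul_one, hlin] at h1
    exact h1
  have hdeg : (C c * (X - C ξ) ^ N : K[X]).natDegree ≤ N := by
    refine (natDegree_C_mul_le _ _).trans ?_
    have h1 := natDegree_pow_le_of_le N (natDegree_X_sub_C_le ξ)
    omega
  -- the right hand side
  have hR : mob α β γ δ (N + N) ((C c * (X - C ξ) ^ N) ^ 2) =
      (C (c * (α - γ * ξ) ^ N) * (X - C ξ') ^ N) ^ 2 := by
    rw [pow_two (C c * (X - C ξ) ^ N), mob_mul hdeg hdeg, mob_C_mul, hpow, mul_pow, C_mul, C_pow]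
    ring
  have hU : mob α β γ δ (N + N) (U ^ 2) = (mob α β γ δ N U) ^ 2 := by
    rw [pow_two, mob_mul h.degU h.degU, pow_two]
  have heq := congrArg (mob α β γ δ (N + N)) h.eq
  rw [mob_sub, hR, hU] at heq
  have hev : (mob α β γ δ N U).eval ξ' ≠ 0 := by
    rw [mob_eval h.degU hz]
    exact mul_ne_zero (pow_ne_zero _ hz) h.ev
  have hc : c * (α - γ * ξ) ^ N ≠ 0 := mul_ne_zero h.c_ne (pow_ne_zero _ hk0)
  rcases h.degW with hW | hW
  · refine ⟨mob α β γ δ N U, 0, c * (α - γ * ξ) ^ N, ?_⟩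
    refine ⟨h.pos, hc, ?_, mob_deg U, Or.inl rfl, hev⟩
    rw [hW] at heq
    have h0 : mob α β γ δ (N + N) (f * 0 ^ 2) = 0 := by
      simp [mob]
    rw [h0] at heq
    rw [← heq]
    ring
  · obtain ⟨k, hk2⟩ : ∃ k, N = k + (g + 1) := ⟨N - (g + 1), by omega⟩
    have hWk : W.natDegree ≤ k := by omega
    refine ⟨mob α β γ δ N U, C s * mob α β γ δ k W, c * (α - γ * ξ) ^ N, ?_⟩
    refine ⟨h.pos, hc, ?_, mob_deg U, Or.inr ?_, hev⟩
    · have h1 : N + N = (2 * g + 2) + (k + k) := by omega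
      have h2 : mob α β γ δ (N + N) (f * W ^ 2) =
          mob α β γ δ (2 * g + 2) f * (mob α β γ δ k W) ^ 2 := by
        rw [h1, pow_two W, mob_mul hf (natDegree_mul_le_of_le hWk hWk), mob_mul hWk hWk, pow_two]
      rw [h2] at heq
      rw [← heq]
      have h3 : (C s : K[X]) ^ 2 * C e = 1 := by
        rw [← C_pow, ← C_mul, hs, C_1]
      linear_combination (-(mob α β γ δ (2 * g + 2) f * (mob α β γ δ k W) ^ 2)) * h3
    · have h4 : (C s * mob α β γ δ k W).natDegree ≤ k :=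
        (natDegree_C_mul_le _ _).trans (mob_deg W)
      omega

end Pool.Agent.MNU.H86
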